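import Mathlib
import Pool.Agent.TH456.HN.Herm
import Pool.Agent.TH456.HN.Dens

set_option autoImplicit false

namespace Pool.Agent.Results.MP_ccb155_nt.SparserExceptions

open Filter Topology Finset

/-- the distance `‖x‖` from `x` to the nearest integer -/
noncomputable def dz (x : ℝ) : ℝ := |x - round x|

/-- For every real `ξ ≠ 0` (`ξ = 1` is Mahler's case):
(1) for `m ≥ 1`, `c > 0` and `0 < κ < (cm - 1) / ((m + 1) (m - 1 + cm))`, every window `[n, n + ⌊n^κ⌋]` with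
`n` large contains at most `m` integers `x` with `‖ξ e^x‖ ≤ e^{-cx}`, and there are `O(X^{1-κ})` of them up
to `X`;
(2) for every `ε > 0` there is `C` such that, for all large `X`, at most `ε X` of the integers `n ≤ X` satisfy
`‖ξ e^n‖ ≤ exp(-C n log log n / log n)`;
(3) for every `η > 0` one has `‖ξ e^n‖ > exp(-n / (log n)^{1-η})` for all `n` outside a set of natural
density zero. -/
theorem result (ξ : ℝ) (hξ : ξ ≠ 0) :
    (∀ (m : ℕ) (c κ : ℝ), 1 ≤ m → 0 < c → 0 < κ → κ * ((m + 1) * (m - 1 + c * m)) < c * m - 1 →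
      (∃ n₀ : ℕ, ∀ n : ℕ, n₀ ≤ n →
        ((Icc n (n + ⌊(n : ℝ) ^ κ⌋₊)).filter
          (fun x : ℕ => dz (ξ * Real.exp x) ≤ Real.exp (-(c * x)))).card ≤ m) ∧
      (∃ D : ℝ, ∀ X : ℕ, 1 ≤ X →
        (((Icc 1 X).filter (fun x : ℕ => dz (ξ * Real.exp x) ≤ Real.exp (-(c * x)))).card : ℝ)
          ≤ D * (X : ℝ) ^ (1 - κ))) ∧
    (∀ ε : ℝ, 0 < ε → ∃ C : ℝ, 0 < C ∧ ∃ X₀ : ℕ, ∀ X : ℕ, X₀ ≤ X →
      (((Icc 1 X).filter (fun n : ℕ => dz (ξ * Real.exp n) ≤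
        Real.exp (-(C * n * Real.log (Real.log n) / Real.log n)))).card : ℝ) ≤ ε * X) ∧
    (∀ η : ℝ, 0 < η → Tendsto (fun X : ℕ => (((Icc 1 X).filter (fun n : ℕ => dz (ξ * Real.exp n) ≤
        Real.exp (-((n : ℝ) / Real.log n ^ (1 - η))))).card : ℝ) / X) atTop (𝓝 0)) := by
  refine ⟨?_, TH456.TI.density3 ξ hξ, TH456.TI.zero_density3 ξ hξ⟩
  intro m c κ hm hc hκ0 hκ
  obtain ⟨n₀, hn⟩ := TH456.HN.window' ξ hξ m c κ hm hc hκ0 hκ
  refine ⟨⟨n₀, hn⟩, ?_⟩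
  have hm0 : (1 : ℝ) ≤ m := by exact_mod_cast hm
  have hκ1 : κ < 1 := by
    by_contra hcon
    push Not at hcon
    have h1 : (0 : ℝ) ≤ (m + 1) * (m - 1 + c * m) := by
      have : (0 : ℝ) ≤ m - 1 := by linarith
      positivity
    have h2 := mul_le_mul_of_nonneg_right hcon h1
    have h3 : 0 ≤ c * m := by positivity
    nlinarith
  exact MahlerExp.count_of_window _ m n₀ κ hκ0 hκ1 hn

end Pool.Agent.Results.MP_ccb155_nt.SparserExceptions
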